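import Pool.Agent.H23.LC.Targets
import Pool.Agent.H27.TM.TargetsA
import Pool.Agent.H29.TC.Targets

/-!
# The twelfth moment of Hecke L-functions: row CT (number of the characters)
-/

set_option autoImplicit false

open NumberField NumberField.InfinitePlace NumberField.Units
  NumberField.Units.dirichletUnitTheorem MeasureTheory Set Filter Complex
open scoped nonZeroDivisors ENNReal

namespace Pool.Agent.H33.TMB.CT

open Pool.Agent.H25.HK Pool.Agent.H23.LB Pool.Agent.H23.LC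
open Pool.Agent.H27.TM
open Pool.Agent.H31.SW (dK)

private lemma one_le_dK (K : Type) [Field K] [NumberField K] : 1 ≤ dK K := by
  unfold dK
  have h := Int.one_le_abs (NumberField.discr_ne_zero K)
  exact_mod_cast h

private lemma one_le_Nf {K : Type} [Field K] [NumberField K] {f : Ideal (𝓞 K)} (hf : f ≠ ⊥) :
    1 ≤ Nf K f := by
  unfold Nf
  have h : Ideal.absNorm f ≠ 0 := by rwa [Ne, Ideal.absNorm_eq_zero_iff]
  exact_mod_cast Nat.one_le_iff_ne_zero.2 h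

private lemma Phi_le {K : Type} [Field K] [NumberField K] {f : Ideal (𝓞 K)} (hf : f ≠ ⊥) :
    (Phi K f : ℝ) ≤ Nf K f := by
  unfold Phi Nf
  have : Finite (𝓞 K ⧸ f) := Ideal.finiteQuotientOfFreeOfNeBot f hf
  have h1 : Nat.card (𝓞 K ⧸ f)ˣ ≤ Nat.card (𝓞 K ⧸ f) :=
    Nat.card_le_card_of_injective _ Units.val_injective
  rw [Ideal.absNorm_apply, Submodule.cardQuot_apply]
  exact_mod_cast h1

private lemma bs_one {K : Type} [Field K] [NumberField K] {f : Ideal (𝓞 K)} (χ : HG K f) (t : ℝ)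
    (b : Ideal (𝓞 K) → ℂ) (hb1 : b ⊤ = 1) (hb0 : ∀ J, J ≠ ⊤ → b J = 0) :
    bs χ.ψ b 1 t = 1 := by
  unfold bs
  rw [tsum_eq_single (⟨⊤, top_ne_bot⟩ : NZI K)]
  · rw [if_pos]
    · change b ⊤ * χ.ψ ⊤ * (Ideal.absNorm (⊤ : Ideal (𝓞 K)) : ℂ) ^ (-(t * I : ℂ)) = 1
      rw [hb1, χ.map_top, Ideal.absNorm_top]
      simp
    · change (1 : ℝ) ≤ (Ideal.absNorm (⊤ : Ideal (𝓞 K)) : ℝ) ∧
        (Ideal.absNorm (⊤ : Ideal (𝓞 K)) : ℝ) < 2 * 1
      rw [Ideal.absNorm_top]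
      norm_num
  · intro J hJ
    have h : J.1 ≠ ⊤ := fun h => hJ (Subtype.ext h)
    rw [hb0 _ h, zero_mul, zero_mul, ite_self]

theorem pf_CT (hMV : Pool.Agent.H23.LC.U_MV) (hHR : Pool.Agent.H29.TC.T_HR) : M_CT := by
  intro n hn
  obtain ⟨C1, B, hC1, -, h1⟩ := hMV n hn
  obtain ⟨C2, h2⟩ := hHR n 1 one_pos
  refine ⟨1 + 2 * C1 * |C2| * (8 ^ n * 8 ^ n), by
    have : 0 ≤ 2 * C1 * |C2| * (8 ^ n * 8 ^ n) := by positivity
    linarith, ?_⟩
  intro K _ _ hK f hf S hS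
  classical
  have h3 := h1 1 one_pos le_rfl K hK f hf 8 (by norm_num) S hS 1 1
    (fun J => if J = ⊤ then 1 else 0) one_pos zero_le_one (by
      intro J
      split_ifs <;> simp)
  have hd : 1 ≤ dK K := one_le_dK K
  have hN : 1 ≤ Nf K f := one_le_Nf hf
  have hP : (Phi K f : ℝ) ≤ Nf K f := Phi_le hf
  have hP0 : (0 : ℝ) ≤ (Phi K f : ℝ) := Nat.cast_nonneg _
  have h4 := h2 K hK
  have h5 : |(discr K : ℝ)| = dK K := rfl
  rw [h5] at h3 h4
  have hE : (1 : ℝ) ≤ 8 ^ n := one_le_pow₀ (by norm_num)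
  have hl : ∑ χ ∈ S, ∫⁻ t in Icc (-8 : ℝ) 8,
      ENNReal.ofReal (‖bs χ.ψ (fun J => if J = ⊤ then 1 else 0) 1 t‖ ^ 2) =
      ENNReal.ofReal (16 * (S.card : ℝ)) := by
    have : ∀ χ ∈ S, ∫⁻ t in Icc (-8 : ℝ) 8,
        ENNReal.ofReal (‖bs χ.ψ (fun J => if J = ⊤ then 1 else 0) 1 t‖ ^ 2) =
        ENNReal.ofReal 16 := by
      intro χ _
      have h6 : ∀ t : ℝ, ENNReal.ofReal
          (‖bs χ.ψ (fun J => if J = ⊤ then 1 else 0) 1 t‖ ^ 2) = 1 := by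
        intro t
        rw [bs_one χ t _ (if_pos rfl) (fun J hJ => if_neg hJ)]
        simp
      simp_rw [h6]
      rw [lintegral_one, Measure.restrict_apply_univ, Real.volume_Icc]
      norm_num
    rw [Finset.sum_congr rfl this, Finset.sum_const, nsmul_eq_mul, ENNReal.ofReal_mul
      (by norm_num), mul_comm, ENNReal.ofReal_natCast]
  rw [hl] at h3
  have hR0 : (0 : ℝ) ≤ (classNumber K : ℝ) * regulator K :=
    mul_nonneg (Nat.cast_nonneg _) (regulator_pos K).le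
  have hRK : 0 ≤ C1 * 1 ^ (-B) * (dK K * (Nf K f * 8 ^ n)) ^ (1 : ℝ) *
        (8 ^ n * (classNumber K * regulator K * Phi K f)) *
        (1 ^ 2 * (1 * (1 + 1 / (Real.sqrt (dK K) * (Nf K f * 8 ^ n))))) := by
    have : (0 : ℝ) ≤ (classNumber K : ℝ) * regulator K * Phi K f := mul_nonneg hR0 hP0
    have h0 : (0 : ℝ) ≤ (1 : ℝ) ^ (-B) := by rw [Real.one_rpow]; norm_num
    positivity
  rw [ENNReal.ofReal_le_ofReal_iff hRK, Real.one_rpow, Real.rpow_one] at h3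
  have h6 : (1 : ℝ) ^ 2 * (1 * (1 + 1 / (Real.sqrt (dK K) * (Nf K f * 8 ^ n)))) ≤ 2 := by
    have h7 : 1 ≤ Real.sqrt (dK K) := Real.one_le_sqrt.2 hd
    have h8 : 1 ≤ Real.sqrt (dK K) * (Nf K f * 8 ^ n) := by nlinarith [one_le_mul_of_one_le_of_one_le hN hE]
    have h9 : 1 / (Real.sqrt (dK K) * (Nf K f * 8 ^ n)) ≤ 1 := by
      rw [div_le_one (by linarith)]
      exact h8
    linarith
  have h7 : (classNumber K : ℝ) * regulator K ≤ |C2| * dK K ^ 2 := by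
    refine h4.trans ?_
    have h8 : dK K ^ (1 / 2 + 1 : ℝ) ≤ dK K ^ 2 := by
      rw [← Real.rpow_natCast]
      exact Real.rpow_le_rpow_of_exponent_le hd (by norm_num)
    exact mul_le_mul (le_abs_self C2) h8 (Real.rpow_nonneg (by linarith) _) (abs_nonneg _)
  have h8 : (classNumber K : ℝ) * regulator K * Phi K f ≤ |C2| * dK K ^ 2 * Nf K f :=
    mul_le_mul h7 hP hP0 (by positivity)
  have h9 : C1 * 1 * (dK K * (Nf K f * 8 ^ n)) *
        (8 ^ n * (classNumber K * regulator K * Phi K f)) *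
        (1 ^ 2 * (1 * (1 + 1 / (Real.sqrt (dK K) * (Nf K f * 8 ^ n))))) ≤
      C1 * 1 * (dK K * (Nf K f * 8 ^ n)) * (8 ^ n * (|C2| * dK K ^ 2 * Nf K f)) * 2 := by
    have h0 : (0 : ℝ) ≤ (classNumber K : ℝ) * regulator K * Phi K f := mul_nonneg hR0 hP0
    gcongr
  have h10 : Nf K f ^ 2 ≤ Nf K f ^ 3 := pow_le_pow_right₀ hN (by norm_num)
  have h11 : C1 * 1 * (dK K * (Nf K f * 8 ^ n)) * (8 ^ n * (|C2| * dK K ^ 2 * Nf K f)) * 2 =
      2 * C1 * |C2| * (8 ^ n * 8 ^ n) * (dK K ^ 3 * Nf K f ^ 2) := by ring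
  have h12 : 2 * C1 * |C2| * (8 ^ n * 8 ^ n) * (dK K ^ 3 * Nf K f ^ 2) ≤
      2 * C1 * |C2| * (8 ^ n * 8 ^ n) * (dK K ^ 3 * Nf K f ^ 3) := by gcongr
  have h13 : 0 ≤ (dK K * Nf K f) ^ 3 := by positivity
  have h14 : (0 : ℝ) ≤ S.card := Nat.cast_nonneg _
  have h15 : (1 + 2 * C1 * |C2| * (8 ^ n * 8 ^ n)) * (dK K * Nf K f) ^ 3 =
      (dK K * Nf K f) ^ 3 + 2 * C1 * |C2| * (8 ^ n * 8 ^ n) * (dK K ^ 3 * Nf K f ^ 3) := by ring
  rw [h15]
  linarith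

end Pool.Agent.H33.TMB.CT
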