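import Pool.Agent.H23.LC.Targets
import Pool.Agent.H27.TM.TargetsA

/-!
# Board tm12_modules, module HM: the quotient of two characters
-/

set_option autoImplicit false

open NumberField NumberField.InfinitePlace NumberField.Units
  NumberField.Units.dirichletUnitTheorem MeasureTheory Set Filter Complex
open scoped nonZeroDivisors ENNReal

namespace Pool.Agent.H33.TMB.HM

open Pool.Agent.H25.HK Pool.Agent.H23.LB Pool.Agent.H23.LC Pool.Agent.H27.TM

section

variable {K : Type} [Field K] [NumberField K]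

private lemma ag_sub (hAG : U_AG) (k k' : InfinitePlace K → ℤ) {x : K} (hx : x ≠ 0) :
    ag (k - k') x = ag k x * (starRingEnd ℂ) (ag k' x) := by
  rw [← (hAG K k').2.2.2.1 x hx]
  unfold ag
  rw [← Finset.prod_mul_distrib]
  refine Finset.prod_congr rfl fun v _ => ?_
  have h1 : v.embedding x / ((v x : ℝ) : ℂ) ≠ 0 := by
    refine div_ne_zero ((map_ne_zero _).2 hx) ?_
    rw [Complex.ofReal_ne_zero]
    exact (map_ne_zero v).2 hx
  rw [← zpow_add₀ h1, Pi.sub_apply, Pi.neg_apply, sub_eq_add_neg]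

private lemma ph_sub (ν ν' : InfinitePlace K → ℝ) (x : K) :
    ph (ν - ν') x = ph ν x * (starRingEnd ℂ) (ph ν' x) := by
  unfold ph
  rw [← Complex.exp_conj, ← Complex.exp_add]
  congr 1
  rw [map_mul, Complex.conj_ofReal, Complex.conj_I, mul_neg, ← sub_eq_add_neg, ← sub_mul,
    ← Complex.ofReal_sub, ← Finset.sum_sub_distrib]
  congr 2
  refine Finset.sum_congr rfl fun v _ => ?_
  rw [Pi.sub_apply]
  ring

private lemma hg_ext {f : Ideal (𝓞 K)} {χ χ' : HG K f} (h1 : χ.ψ = χ'.ψ) (h2 : χ.k = χ'.k)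
    (h3 : χ.ν = χ'.ν) : χ = χ' := by
  cases χ
  cases χ'
  simp only at h1 h2 h3
  subst h1 h2 h3
  rfl

/-- the quotient -/
private noncomputable def quo (hAG : U_AG) {f : Ideal (𝓞 K)} (χ₀ χ : HG K f)
    (h : ∀ v : InfinitePlace K, v.IsReal → χ.k v = χ₀.k v) : HG K f where
  ψ I := χ.ψ I * (starRingEnd ℂ) (χ₀.ψ I)
  k := χ.k - χ₀.k
  ν := χ.ν - χ₀.ν
  map_top := by rw [χ.map_top, χ₀.map_top, map_one, mul_one]
  map_mul I J := by
    rw [χ.map_mul, χ₀.map_mul, _root_.map_mul]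
    ring
  map_bot := by rw [χ.map_bot, zero_mul]
  norm_one I h1 h2 := by
    rw [norm_mul, RCLike.norm_conj, χ.norm_one I h1 h2, χ₀.norm_one I h1 h2, mul_one]
  eq_zero I h1 := by rw [χ.eq_zero I h1, zero_mul]
  princ a ha h1 := by
    have ha' : (a : K) ≠ 0 := by
      simpa using ha
    rw [χ.princ a ha h1, χ₀.princ a ha h1, ag_sub hAG _ _ ha', ph_sub, _root_.map_mul]
    ring
  real_k v hv := by
    left
    rw [Pi.sub_apply, h v hv, sub_self]
  norm_zero := by
    have h1 := χ.norm_zero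
    have h2 := χ₀.norm_zero
    simp only [Pi.sub_apply, mul_sub, Finset.sum_sub_distrib, h1, h2, sub_self]

end

/-- The quotient of two characters. -/
theorem pf_HM (hAG : U_AG) : M_HM := by
  classical
  intro K _ _ f χ₀ _
  refine ⟨fun χ => if h : ∀ v : InfinitePlace K, v.IsReal → χ.k v = χ₀.k v then
    quo hAG χ₀ χ h else χ, ?_, ?_⟩
  · intro χ h
    simp only
    rw [dif_pos h]
    exact ⟨rfl, rfl⟩
  · intro χ χ' h h' he
    simp only at he
    rw [dif_pos h, dif_pos h'] at he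
    have h1 : ∀ I, χ.ψ I * (starRingEnd ℂ) (χ₀.ψ I) = χ'.ψ I * (starRingEnd ℂ) (χ₀.ψ I) :=
      fun I => congrFun (congrArg HG.ψ he) I
    have h2 : χ.k - χ₀.k = χ'.k - χ₀.k := congrArg HG.k he
    have h3 : χ.ν - χ₀.ν = χ'.ν - χ₀.ν := congrArg HG.ν he
    refine hg_ext ?_ (sub_left_injective h2) (sub_left_injective h3)
    funext I
    by_cases hI : I = ⊥
    · rw [hI, χ.map_bot, χ'.map_bot]
    · by_cases hf : I ⊔ f = ⊤
      · refine mul_right_cancel₀ ?_ (h1 I)
        rw [← norm_ne_zero_iff, RCLike.norm_conj, χ₀.norm_one I hI hf]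
        exact one_ne_zero
      · rw [χ.eq_zero I hf, χ'.eq_zero I hf]

end Pool.Agent.H33.TMB.HM
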