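import Pool.Agent.H27.TM.TargetsG

/-!
# The twelfth moment of Hecke L-functions: row CL (cells)
-/

set_option autoImplicit false

open NumberField NumberField.InfinitePlace MeasureTheory Set Filter Complex
open scoped nonZeroDivisors ENNReal

namespace Pool.Agent.H33.TMB.CL

open Pool.Agent.H27.TM
open Pool.Agent.H29.DW (Rl rv)
open Pool.Agent.H31.SW (PP)

private lemma card_cells {x : ℝ} (hx : 1 ≤ x) :
    ((Finset.Icc (-(⌊2 * x⌋ + 1)) (⌊2 * x⌋ + 1)).card : ℝ) ≤ 7 * x := by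
  have h1 : ((⌊2 * x⌋ : ℤ) : ℝ) ≤ 2 * x := Int.floor_le _
  have h0 : (0 : ℤ) ≤ ⌊2 * x⌋ := Int.floor_nonneg.2 (by linarith)
  rw [Int.card_Icc]
  have h2 : (0 : ℤ) ≤ ⌊2 * x⌋ + 1 + 1 - -(⌊2 * x⌋ + 1) := by linarith
  have h3 : (((⌊2 * x⌋ + 1 + 1 - -(⌊2 * x⌋ + 1)).toNat : ℕ) : ℝ) =
      ((⌊2 * x⌋ + 1 + 1 - -(⌊2 * x⌋ + 1) : ℤ) : ℝ) := by
    exact_mod_cast congrArg (Int.cast (R := ℝ)) (Int.toNat_of_nonneg h2)
  rw [h3]
  push_cast
  linarith

private lemma mem_cells {a H τ : ℝ} (hH : 0 < H) (ha : |a| ≤ 2 * τ) :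
    ⌊a / H⌋ ∈ Finset.Icc (-(⌊2 * (τ / H)⌋ + 1)) (⌊2 * (τ / H)⌋ + 1) := by
  have h1 : |a / H| ≤ 2 * (τ / H) := by
    rw [abs_div, abs_of_pos hH, ← mul_div_assoc]
    exact div_le_div_of_nonneg_right ha hH.le
  obtain ⟨h2, h3⟩ := abs_le.1 h1
  rw [Finset.mem_Icc]
  constructor
  · rw [Int.le_floor]
    have h4 : 2 * (τ / H) < ((⌊2 * (τ / H)⌋ : ℤ) : ℝ) + 1 := Int.lt_floor_add_one _
    push_cast
    linarith
  · have h4 : ⌊a / H⌋ ≤ ⌊2 * (τ / H)⌋ := Int.floor_le_floor h3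
    linarith

theorem pf_CL : M_CL := by
  intro n hn
  refine ⟨7 ^ n, one_le_pow₀ (by norm_num), ?_⟩
  intro K _ _ hK ι J c τ H hH hc
  classical
  obtain ⟨g, hg⟩ := exists_injective_nat (InfinitePlace K → ℤ × ℤ)
  let q : ι → InfinitePlace K → ℤ × ℤ := fun j v => (⌊(c j v).re / H v⌋, ⌊(c j v).im / H v⌋)
  refine ⟨fun j => g (q j), ?_, ?_⟩
  · have h1 : (J.image fun j => g (q j)) = (J.image q).image g := by
      rw [Finset.image_image]
      rfl
    have h2 : ((J.image fun j => g (q j)).card : ℝ) = ((J.image q).card : ℝ) := by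
      rw [h1, Finset.card_image_of_injective _ hg]
    rw [h2]
    let A : InfinitePlace K → Finset (ℤ × ℤ) := fun v =>
      if v.IsReal then (Finset.Icc (-(⌊2 * (τ v / H v)⌋ + 1)) (⌊2 * (τ v / H v)⌋ + 1)) ×ˢ {0}
      else (Finset.Icc (-(⌊2 * (τ v / H v)⌋ + 1)) (⌊2 * (τ v / H v)⌋ + 1)) ×ˢ
        (Finset.Icc (-(⌊2 * (τ v / H v)⌋ + 1)) (⌊2 * (τ v / H v)⌋ + 1))
    have h3 : J.image q ⊆ Fintype.piFinset A := by
      intro p hp
      obtain ⟨j, hj, rfl⟩ := Finset.mem_image.1 hp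
      rw [Fintype.mem_piFinset]
      intro v
      obtain ⟨h4, h5⟩ := hc j hj v
      have h6 := mem_cells (hH v).1 ((Complex.abs_re_le_norm (c j v)).trans h5)
      have h7 := mem_cells (hH v).1 ((Complex.abs_im_le_norm (c j v)).trans h5)
      by_cases hv : v.IsReal
      · have h8 : A v = (Finset.Icc (-(⌊2 * (τ v / H v)⌋ + 1)) (⌊2 * (τ v / H v)⌋ + 1)) ×ˢ
            {0} := if_pos hv
        rw [h8, Finset.mem_product]
        refine ⟨h6, ?_⟩
        have h9 : (c j v).im = 0 := h4 (by unfold rv; exact decide_eq_true hv)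
        change ⌊(c j v).im / H v⌋ ∈ ({0} : Finset ℤ)
        rw [h9, zero_div, Int.floor_zero, Finset.mem_singleton]
      · have h8 : A v = (Finset.Icc (-(⌊2 * (τ v / H v)⌋ + 1)) (⌊2 * (τ v / H v)⌋ + 1)) ×ˢ
            (Finset.Icc (-(⌊2 * (τ v / H v)⌋ + 1)) (⌊2 * (τ v / H v)⌋ + 1)) := if_neg hv
        rw [h8, Finset.mem_product]
        exact ⟨h6, h7⟩
    have h4 : ((J.image q).card : ℝ) ≤ ∏ v, ((A v).card : ℝ) := by
      have := Finset.card_le_card h3
      rw [Fintype.card_piFinset] at this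
      exact_mod_cast this
    have h5 : ∀ v : InfinitePlace K, ((A v).card : ℝ) ≤ (7 * (τ v / H v)) ^ v.mult := by
      intro v
      have hx : 1 ≤ τ v / H v := (one_le_div (hH v).1).2 (hH v).2
      have hcc := card_cells hx
      by_cases hv : v.IsReal
      · have h8 : A v = (Finset.Icc (-(⌊2 * (τ v / H v)⌋ + 1)) (⌊2 * (τ v / H v)⌋ + 1)) ×ˢ
            {0} := if_pos hv
        have hm : v.mult = 1 := if_pos hv
        rw [h8, Finset.card_product, Finset.card_singleton, mul_one, hm, pow_one]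
        exact hcc
      · have h8 : A v = (Finset.Icc (-(⌊2 * (τ v / H v)⌋ + 1)) (⌊2 * (τ v / H v)⌋ + 1)) ×ˢ
            (Finset.Icc (-(⌊2 * (τ v / H v)⌋ + 1)) (⌊2 * (τ v / H v)⌋ + 1)) := if_neg hv
        have hm : v.mult = 2 := if_neg hv
        rw [h8, Finset.card_product, hm, sq]
        push_cast
        exact mul_le_mul hcc hcc (Nat.cast_nonneg _) (by linarith)
    have h6 : ∏ v : InfinitePlace K, ((A v).card : ℝ) ≤
        ∏ v : InfinitePlace K, (7 * (τ v / H v)) ^ v.mult :=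
      Finset.prod_le_prod (fun v _ => Nat.cast_nonneg _) fun v _ => h5 v
    have h7 : ∏ v : InfinitePlace K, (7 * (τ v / H v)) ^ v.mult = 7 ^ n * (PP τ / PP H) := by
      unfold PP
      rw [← Finset.prod_div_distrib, ← hK, ← NumberField.InfinitePlace.sum_mult_eq,
        ← Finset.prod_pow_eq_pow_sum, ← Finset.prod_mul_distrib]
      refine Finset.prod_congr rfl fun v _ => ?_
      rw [mul_pow, div_pow]
    exact h4.trans (h6.trans h7.le)
  · intro i hi j hj hij v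
    have h1 : q i = q j := hg hij
    have h2 : (q i v).1 = (q j v).1 := by rw [h1]
    have h3 : (q i v).2 = (q j v).2 := by rw [h1]
    have h4 := Int.abs_sub_lt_one_of_floor_eq_floor h2
    have h5 := Int.abs_sub_lt_one_of_floor_eq_floor h3
    have hHv := (hH v).1
    rw [← sub_div, abs_div, abs_of_pos hHv, div_lt_one hHv] at h4 h5
    have h6 := Complex.norm_le_abs_re_add_abs_im (c i v - c j v)
    rw [Complex.sub_re, Complex.sub_im] at h6
    linarith

end Pool.Agent.H33.TMB.CL
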